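import Pool.Agent.helper48.AGR.Spec

/-!
# Row FT: freeness after the totality step
-/

set_option autoImplicit false

namespace Pool.Agent.AGR

open Monoid Function

theorem FT (hSA : SA_stmt) : FT_stmt := by
  intro Γ X _ _ v p q hp hq hv
  refine ⟨?_, ?_⟩
  · rintro J e ⟨h, hinj⟩
    have h' : ∀ (a : Vt) (j : J),
        Commute ((inl : X →* Am q p) ((p.comp v) a)) (inr (e j) : Am q p) := by
      intro a j
      have e1 : (inl : X →* Am q p) ((p.comp v) a) = inr (p (v a)) := by
        change (inl : X →* Am q p) (p (v a)) = inr (p (v a))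
        have h1 : (inl : X →* Am q p) (q (v a)) = inr (p (v a)) := glue (f := q) (g := p) (v a)
        have h2 : p (v a) = q (v a) := hv a
        rw [← h1, h2]
      rw [e1]
      exact (h a j).map (inr : X →* Am q p)
    refine ⟨h', ?_⟩
    have hF0 : ∀ c : Γ, (inl : X →* Am q p) (q c) =
        ((inr : X →* Am q p).comp (W.lift p e h)) ((W.g : Γ →* W v J) c) := by
      intro c
      rw [MonoidHom.comp_apply, W.lift_g]
      exact glue c
    have hF : Injective (lift (f := q) (g := (W.g : Γ →* W v J)) (inl : X →* Am q p)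
        ((inr : X →* Am q p).comp (W.lift p e h)) hF0) :=
      hSA X X Γ X (W v J) q p q (W.g : Γ →* W v J) (MonoidHom.id X) (W.lift p e h) hq hp
        (fun a b hab => hab) hinj (fun c => rfl) (fun c => W.lift_g p e h c) _
        (fun x => lift_inl _ _ _ x) (fun x => lift_inr _ _ _ x)
    have hh0 : ∀ (a : Vt) (j : J), Commute ((inl : X →* Am q (W.g : Γ →* W v J)) ((p.comp v) a))
        (inr (W.y j)) := by
      intro a j
      have e1 : (inl : X →* Am q (W.g : Γ →* W v J)) ((p.comp v) a) = inr (W.g (v a)) := by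
        change (inl : X →* Am q (W.g : Γ →* W v J)) (p (v a)) = _
        rw [hv a, glue (f := q) (g := (W.g : Γ →* W v J)) (v a)]
      rw [e1]
      exact (W.comm a j).map (inr : W v J →* Am q (W.g : Γ →* W v J))
    have hk1 : ∀ (a : Vt) (j : J), Commute (((W.g : X →* W (p.comp v) J).comp q) (v a))
        (W.y j : W (p.comp v) J) := by
      intro a j
      have := W.comm (v := p.comp v) (J := J) a j
      have e1 : (p.comp v) a = q (v a) := hv a
      rw [e1] at this
      exact this
    have hk2 : ∀ c : Γ, (W.g : X →* W (p.comp v) J) (q c) =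
        (W.lift ((W.g : X →* W (p.comp v) J).comp q) W.y hk1) ((W.g : Γ →* W v J) c) := by
      intro c
      rw [W.lift_g]
      rfl
    have hleft : ((lift (f := q) (g := (W.g : Γ →* W v J)) (W.g : X →* W (p.comp v) J)
        (W.lift ((W.g : X →* W (p.comp v) J).comp q) W.y hk1) hk2).comp
        (W.lift (inl : X →* Am q (W.g : Γ →* W v J)) (fun j => inr (W.y j)) hh0)) =
        MonoidHom.id (W (p.comp v) J) := by
      refine W.hom_ext (fun x => ?_) (fun j => ?_)
      · rw [MonoidHom.comp_apply, W.lift_g, lift_inl]; rfl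
      · rw [MonoidHom.comp_apply, W.lift_y, lift_inr, W.lift_y]; rfl
    have hh1 : Injective (W.lift (inl : X →* Am q (W.g : Γ →* W v J)) (fun j => inr (W.y j)) hh0) := by
      intro a b hab
      have h1 := DFunLike.congr_fun hleft a
      have h2 := DFunLike.congr_fun hleft b
      rw [MonoidHom.comp_apply, MonoidHom.id_apply] at h1 h2
      rw [← h1, ← h2, hab]
    have heq : W.lift (inl : X →* Am q p) (fun j => (inr (e j) : Am q p)) h' =
        (lift (f := q) (g := (W.g : Γ →* W v J)) (inl : X →* Am q p)
          ((inr : X →* Am q p).comp (W.lift p e h)) hF0).comp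
          (W.lift (inl : X →* Am q (W.g : Γ →* W v J)) (fun j => inr (W.y j)) hh0) := by
      refine W.hom_ext (fun x => ?_) (fun j => ?_)
      · rw [MonoidHom.comp_apply, W.lift_g, W.lift_g, lift_inl]
      · rw [MonoidHom.comp_apply, W.lift_y, W.lift_y, lift_inr, MonoidHom.comp_apply, W.lift_y]
    rw [heq]
    exact hF.comp hh1
  · rintro J e ⟨h, hinj⟩
    have h' : ∀ (a : Vt) (j : J),
        Commute ((inr : X →* Am q p) ((p.comp v) a)) (inl (e j) : Am q p) := by
      intro a j
      have e1 : (inr : X →* Am q p) ((p.comp v) a) = inl (q (v a)) :=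
        (glue (f := q) (g := p) (v a)).symm
      rw [e1]
      exact (h a j).map (inl : X →* Am q p)
    refine ⟨h', ?_⟩
    have hF0 : ∀ c : Γ, ((inl : X →* Am q p).comp (W.lift q e h)) ((W.g : Γ →* W v J) c) =
        (inr : X →* Am q p) (p c) := by
      intro c
      rw [MonoidHom.comp_apply, W.lift_g]
      exact glue c
    have hF : Injective (lift (f := (W.g : Γ →* W v J)) (g := p)
        ((inl : X →* Am q p).comp (W.lift q e h)) (inr : X →* Am q p) hF0) :=
      hSA X X Γ (W v J) X q p (W.g : Γ →* W v J) p (W.lift q e h) (MonoidHom.id X) hq hp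
        hinj (fun a b hab => hab) (fun c => W.lift_g q e h c) (fun c => rfl) _
        (fun x => lift_inl _ _ _ x) (fun x => lift_inr _ _ _ x)
    have hh0 : ∀ (a : Vt) (j : J), Commute ((inr : X →* Am (W.g : Γ →* W v J) p) ((p.comp v) a))
        (inl (W.y j)) := by
      intro a j
      have e1 : (inr : X →* Am (W.g : Γ →* W v J) p) ((p.comp v) a) = inl (W.g (v a)) :=
        (glue (f := (W.g : Γ →* W v J)) (g := p) (v a)).symm
      rw [e1]
      exact (W.comm a j).map (inl : W v J →* Am (W.g : Γ →* W v J) p)
    have hk1 : ∀ (a : Vt) (j : J), Commute (((W.g : X →* W (p.comp v) J).comp p) (v a))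
        (W.y j : W (p.comp v) J) := fun a j => W.comm (v := p.comp v) (J := J) a j
    have hk2 : ∀ c : Γ, (W.lift ((W.g : X →* W (p.comp v) J).comp p) W.y hk1)
        ((W.g : Γ →* W v J) c) = (W.g : X →* W (p.comp v) J) (p c) := by
      intro c
      rw [W.lift_g]
      rfl
    have hleft : ((lift (f := (W.g : Γ →* W v J)) (g := p)
        (W.lift ((W.g : X →* W (p.comp v) J).comp p) W.y hk1)
        (W.g : X →* W (p.comp v) J) hk2).comp
        (W.lift (inr : X →* Am (W.g : Γ →* W v J) p) (fun j => inl (W.y j)) hh0)) =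
        MonoidHom.id (W (p.comp v) J) := by
      refine W.hom_ext (fun x => ?_) (fun j => ?_)
      · rw [MonoidHom.comp_apply, W.lift_g, lift_inr]; rfl
      · rw [MonoidHom.comp_apply, W.lift_y, lift_inl, W.lift_y]; rfl
    have hh1 : Injective (W.lift (inr : X →* Am (W.g : Γ →* W v J) p) (fun j => inl (W.y j)) hh0) := by
      intro a b hab
      have h1 := DFunLike.congr_fun hleft a
      have h2 := DFunLike.congr_fun hleft b
      rw [MonoidHom.comp_apply, MonoidHom.id_apply] at h1 h2
      rw [← h1, ← h2, hab]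
    have heq : W.lift (inr : X →* Am q p) (fun j => (inl (e j) : Am q p)) h' =
        (lift (f := (W.g : Γ →* W v J)) (g := p)
          ((inl : X →* Am q p).comp (W.lift q e h)) (inr : X →* Am q p) hF0).comp
          (W.lift (inr : X →* Am (W.g : Γ →* W v J) p) (fun j => inl (W.y j)) hh0) := by
      refine W.hom_ext (fun x => ?_) (fun j => ?_)
      · rw [MonoidHom.comp_apply, W.lift_g, W.lift_g, lift_inr]
      · rw [MonoidHom.comp_apply, W.lift_y, W.lift_y, lift_inl, MonoidHom.comp_apply, W.lift_y]
    rw [heq]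
    exact hF.comp hh1

end Pool.Agent.AGR
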