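import Pool.Agent.helper48.AGR.Spec

/-!
# Row PHI: composition of the four steps
-/

set_option autoImplicit false

namespace Pool.Agent.AGR

open Monoid Function

theorem PHI_w {S T : Sys} (m : Mor S T) (a : Vt) : m.j (S.w a) = T.w a := by
  change m.j (S.p (S.v a)) = T.p (T.v a)
  rw [← m.jp, m.jv]

theorem PHI_cen {S T : Sys} (m : Mor S T) {x : S.X} (h : Cen S.w x) : Cen T.w (m.j x) := by
  intro a
  rw [← PHI_w m a]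
  exact (h a).map m.j

/-- Composition of morphisms. -/
def PHI_comp {S T U : Sys} (m : Mor S T) (m' : Mor T U) : Mor S U where
  j := m'.j.comp m.j
  c := m'.c.comp m.c
  hj := m'.hj.comp m.hj
  jp := fun γ => by
    change U.p (m'.c (m.c γ)) = m'.j (m.j (S.p γ))
    rw [m'.jp, m.jp]
  jq := fun γ => by
    change U.q (m'.c (m.c γ)) = m'.j (m.j (S.q γ))
    rw [m'.jq, m.jq]
  jv := fun a => by
    change m'.c (m.c (S.v a)) = U.v a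
    rw [m.jv, m'.jv]

theorem PHI_P1 {S T U : Sys} (m : Mor S T) (m' : Mor T U) (h : P1 S T m) :
    P1 S U (PHI_comp m m') := by
  intro g hg hgV
  obtain ⟨i, i', y, γ₁, γ₂, hy, h1, h2, h3, h4⟩ := h g hg hgV
  refine ⟨i, i', m'.j y, m'.c γ₁, m'.c γ₂, PHI_cen m' hy, ?_, ?_, ?_, ?_⟩
  · rw [m'.jp, h1]; rfl
  · rw [m'.jq, h2, map_mul, map_mul, map_inv]; rfl
  · rw [m'.jp, h3]
  · rw [m'.jq, h4]; rfl

theorem PHI_P2 {S T U : Sys} (m : Mor S T) (m' : Mor T U) (h : P2 S T m) :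
    P2 S U (PHI_comp m m') := by
  intro u hu k
  obtain ⟨z, γ, hz, hγ, hk⟩ := h u hu k
  refine ⟨fun i => m'.j (z i), fun i => m'.c (γ i), fun i => PHI_cen m' (hz i), ?_, ?_⟩
  · intro i hi
    obtain ⟨h1, h2⟩ := hγ i hi
    exact ⟨by rw [m'.jp, h1], by rw [m'.jq, h2]⟩
  · change m'.j (z (k + 1)) = (m'.j (m.j u))⁻¹ * m'.j (z 0)
    rw [hk, map_mul, map_inv]

theorem PHI_P2' {S T U : Sys} (m : Mor S T) (m' : Mor T U) (h : P2 T U m') :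
    P2 S U (PHI_comp m m') := by
  intro u hu k
  exact h (m.j u) (PHI_cen m hu) k

theorem PHI (hA1 : A1_stmt) (hA2 : A2_stmt) (hT1 : T1_stmt) (hT2 : T2_stmt) : PHI_stmt := by
  intro S
  obtain ⟨S1, m1, a1, a2, a3⟩ := hA1 S
  obtain ⟨S2, m2, b1, b2, b3⟩ := hA2 S1
  obtain ⟨S3, m3, c1, c2, c3⟩ := hT1 S2
  obtain ⟨T, m4, d1, d2, d3⟩ := hT2 S3
  refine ⟨T, PHI_comp (PHI_comp (PHI_comp m1 m2) m3) m4, ?_, ?_, ?_, ?_, ?_⟩
  · intro x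
    refine ⟨?_, ?_⟩
    · obtain ⟨γ, hγ⟩ := c1 (m2.j (m1.j x))
      refine ⟨m4.c γ, ?_⟩
      rw [m4.jp, hγ]; rfl
    · obtain ⟨γ, hγ⟩ := d1 (m3.j (m2.j (m1.j x)))
      exact ⟨γ, hγ⟩
  · exact PHI_P1 _ m4 (PHI_P1 _ m3 (PHI_P1 m1 m2 a1))
  · exact PHI_P2 _ m4 (PHI_P2 _ m3 (PHI_P2' m1 m2 b1))
  · intro i
    obtain ⟨i1, h1⟩ := d2 i
    obtain ⟨i2, γ, h2, h3⟩ := c2 i1
    obtain ⟨i3, h4⟩ := b2 i2
    obtain ⟨i4, h5⟩ := a2 i3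
    refine ⟨i4, m4.c γ, ?_, ?_⟩
    · rw [m4.jp, h2, h4, h5]; rfl
    · rw [m4.jq, h3, ← h1]
  · intro i
    obtain ⟨i1, γ, h1, h2⟩ := d3 i
    obtain ⟨i2, h3⟩ := c3 i1
    obtain ⟨i3, h4⟩ := b3 i2
    obtain ⟨i4, h5⟩ := a3 i3
    refine ⟨i4, γ, ?_, h2⟩
    rw [h1, h3, h4, h5]; rfl

end Pool.Agent.AGR
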